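import Pool.Agent.W552.AvMain

open CategoryTheory AlgebraicGeometry

universe u v w

namespace Pool.Agent.Results.MP_c0b458_ag.AbelianGenerated

open Pool.Agent.H914 Pool.Agent.H914.VarClass Pool.Agent.H914.VarClass.Obj
  Pool.Agent.H281R3.HT Pool.Agent.W552

/-- **The standard conjecture of Hodge type for the classes generated by abelian varieties for
which it is known**: let `P` be a family of polarized varieties of abelian type (for example all
polarized abelian varieties over an algebraic closure of a finite field) and let `T` be a set of
members (for example those of dimension at most four) which satisfy the standard conjecture of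
Hodge type (modulo numerical equivalence). Then it holds for every cycle on every member whose
class is a linear combination of classes obtained from the classes of divisors and from all the
algebraic classes on the members in `T` by products, pull-backs and push-forwards along arbitrary
morphisms between members. If homological and numerical equivalence coincide for the members in
`T`, then also for these cycles. -/
theorem result {k : Type u} [Field k] {𝒱 : VarClass k} {ops : CycleOps 𝒱}
    (W : WeilCohomology.{u, v} ops) (σ : W.K ≃+* ℂ) {ι : Type w} (P : ι → Polarized 𝒱)
    (hP : ∀ s, IsAbelianLike W (P s))
    (hI : ∀ s t, HodgeIndex W ((P s).prod ops (P t)).X ((P s).prod ops (P t)).D) (T : Set ι)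
    (hT : ∀ t ∈ T, NumHodge ops (P t) (fun _ => True)) (s : ι) :
    NumHodge ops (P s) (Generated W P T s) ∧
      ((∀ t ∈ T, ConjD W (P t).X (fun _ => True)) → ConjD W (P s).X (Generated W P T s)) :=
  av_result W σ hP hI T hT s

end Pool.Agent.Results.MP_c0b458_ag.AbelianGenerated
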