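import Mathlib
import Pool.Agent.W484.HS.Fin

/-!
# The numerical Hodge standard conjecture for products of almost all abelian varieties with
abelian varieties of small rank

Let `g i` (`i` in a finite set `I`) be positive integers and `r` an integer smaller than all the
`g i`.  For a prime power `q` let `S i` be the set of the characteristic polynomials of Frobenius
of the ordinary abelian varieties of dimension `g i` over the field with `q` elements, or of all
abelian varieties of dimension `g i`, or any set in between.

For all families `F i` in `S i` with the exception of a proportion `O (q ^ (-1 / 6) log q)` the
following holds for all abelian varieties `A` over the field with `q` elements, isogenous to a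
product of powers of abelian varieties with characteristic polynomials `F i`, and **all** smooth
projective varieties `Y` over the field with `q ^ s` elements of Frobenius rank at most `r` (for
instance abelian varieties of dimension at most `r`, and their powers) for which the conjectures
`B` and `D` hold: homological and numerical equivalence coincide on `A × Y`, and the numerical
Hodge standard conjecture holds for `A × Y` if and only if it holds for `A` and for `Y`.

By Milne it holds for `A` (there are no exotic classes on `A`).  It holds for `Y` in characteristic
zero, for abelian varieties `Y` without exotic classes (Milne), of dimension at most four (Ancona),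
and some others.  Note that `A × Y` has exotic classes if `Y` has, and not only in the middle
codimension.
-/

set_option autoImplicit false

universe u v

namespace Pool.Agent.Results.MP_c0b458_ag.AlmostAllTimesSmallRank

open Polynomial Pool.Agent.W521.Descent Pool.Agent.W521.Count Pool.Agent.W484.AA
  Pool.Agent.W484.HS

/-- `weilPolys q g` is the set of monic integral polynomials of degree `2 g` with constant term
`q ^ g` and all roots of absolute value `√q`; `ordinaryWeilPolys q g` is the subset of those
whose coefficient of index `g` is prime to `q`. -/
theorem result {I : Type} [Fintype I] (g : I → ℕ) (r : ℕ) (hr : ∀ i, r < g i) :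
    ∃ C : ℝ, ∀ q : ℕ, IsPrimePow q → ∀ S : I → Set ℤ[X],
      (∀ i, ordinaryWeilPolys q (g i) ⊆ S i ∧ S i ⊆ weilPolys q (g i)) →
      (∀ i, (S i).Finite ∧ (S i).Nonempty) ∧
      ({F : I → ℤ[X] | (∀ i, F i ∈ S i) ∧ ¬ HodgeForSmallRank.{u, v} q r F}.ncard : ℝ) ≤
        C * (Real.log q * (q : ℝ) ^ (-(1 / 6) : ℝ)) * ∏ i, ((S i).ncard : ℝ) :=
  count_of_good g (fun i => (Nat.zero_le r).trans_lt (hr i))
    (fun q F => HodgeForSmallRank.{u, v} q r F)
    fun _ hq x hx => hodgeForSmallRank_of_good g hq.pos.ne' r hr x hx

end Pool.Agent.Results.MP_c0b458_ag.AlmostAllTimesSmallRank
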