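import Pool.Agent.W547.HR.Final

/-!
# The standard conjecture of Hodge type for products of ordinary abelian varieties with
small simple factors

Let `A₀` be an ordinary abelian variety over the field with `q = p ^ a` elements, isogenous to a
product (with any number of factors, so of any dimension) of abelian varieties of dimension at
most three with complex multiplication by CM fields `E i` containing their Frobenius endomorphisms. The
canonical lift of `A₀` is, up to isogeny, a product `X` of abelian varieties with complex
multiplication by the fields `E i` of degree at most six; assume that any two factors whose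
fields have the same Galois closure over `ℚ` have isomorphic CM types or a Galois field
(`SmallFactors`).

Let `E` be a polarization of `X`, with class `L`, and let `z ∈ H^{2r}(A₀, ℚ_ℓ)`, `2 r ≤ d = dim X`, be
a class (an alternating form in `2 r` variables, indexed by `Fin r × Fin 2`, on the rational Tate
module `V = K ⊗ H_1(X, ℚ)`, `K = ℚ_ℓ`) which is nonzero and primitive: `z ∪ L^{d - 2r + 1} = 0`.
Assume that `z` has the following two properties, shared by all classes of algebraic cycles:

* it is a Tate class: the `s`-th power of the Frobenius endomorphism multiplies it by `q ^ {r s}` for
  some `s > 0`;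
* its intersection numbers with the classes of complementary degree in the ring generated by the
  classes of divisors on `X` and by the pull-backs, along homomorphisms `X → Y`, of the Weil
  classes of imaginary quadratic fields on abelian fourfolds and sixfolds `Y` of CM type and of split
  Weil type are rational. (The classes in this ring are algebraic by theorems of Markman.)

Then `(-1)^r z ∪ z ∪ L^{d - 2r} = c L^d` with a positive rational number `c`. So the standard
conjecture of Hodge type holds for `A₀`, for every prime number `ℓ ≠ p`.

The Hodge-Riemann relations for the exterior algebra are proved in `Pool.Agent.W547.HR`.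
-/

namespace Pool.Agent.Results.MP_c0b458_ag.OrdinarySmallFactors

open Module Pool.Agent.W547.KB Pool.Agent.W547.LD Pool.Agent.W530.NF Pool.Agent.W547.LN
open Pool.Agent.W547.HR

/-- `X` is the canonical lift of `A₀`; every nonzero primitive class `z` with the properties of
algebraic classes satisfies the positivity of the conjecture. -/
theorem result (p : ℕ) [Fact p.Prime] (a : ℕ) (ha : 0 < a) (ν : PadicAlgCl p ≃+* ℂ) (X : CMAV)
    (hX : SmallFactors X) (π : X.H1)
    (hπ : IsCanonicalLift p a ν X π) {K V : Type} [Field K] [CharZero K]
    [AddCommGroup V] [Module K V] (C : Comparison X K V) (F : V →ₗ[K] V)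
    (hF : IsFrobeniusMap C π F) {E : X.H1 → X.H1 → ℚ} (hE : IsPolarization X E) (r m : ℕ)
    (hd : 2 * (2 * r + m) = finrank ℚ X.H1) (z : V [⋀^Fin r × Fin 2]→ₗ[K] K) (s : ℕ)
    (hs : 0 < s) (htate : IsTateOver F (p ^ a) s z) (hrat : HasRationalNumbers C z)
    (hprim : IsPrimitive C E m z) (hz : z ≠ 0) : IsPositive C E m z :=
  hodgeStandard_small X hX p a ha ν π hπ C F hF hE r m hd z s hs htate hrat hprim hz

end Pool.Agent.Results.MP_c0b458_ag.OrdinarySmallFactors
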